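import Pool.Agent.SZG.StmtsM

set_option autoImplicit false

namespace Pool.Agent.SZG.H45

open Pool.Agent.SZG
open Pool.Agent.THS

/-- Row TCS of `Pool/Agent/SZG/StmtsM.lean`: scalar form of a congruence. -/
theorem tcs : TcsStmt := by
  intro K ι _ _ v θ y y' hna hθ0 hθ1 hy hy' hTC
  have hle : ∀ (z : ι → K) (i : ι), v (z i) ≤ nv v z := fun z i =>
    le_ciSup (f := fun i => v (z i)) (Set.finite_range _).bddAbove i
  have hpos : ∀ z : ι → K, z ≠ 0 → 0 < nv v z := by
    intro z hz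
    obtain ⟨i, hi⟩ := Function.ne_iff.1 hz
    exact lt_of_lt_of_le (v.pos hi) (hle z i)
  have hex : ∀ z : ι → K, z ≠ 0 → ∃ i, v (z i) = nv v z := by
    intro z hz
    obtain ⟨i, hi⟩ := Function.ne_iff.1 hz
    haveI : Nonempty ι := ⟨i⟩
    exact exists_eq_ciSup_of_finite (f := fun i => v (z i))
  obtain ⟨q, hq⟩ := hex y' hy'
  have hY' := hpos y' hy'
  have hY := hpos y hy
  have hq0 : y' q ≠ 0 := by
    intro h
    rw [h, map_zero] at hq
    rw [← hq] at hY'
    exact lt_irrefl _ hY'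
  obtain ⟨κ, hκ⟩ : ∃ κ : K, κ * y' q = y q := ⟨y q / y' q, div_mul_cancel₀ _ hq0⟩
  have h1 : ∀ p, v (y p - κ * y' p) ≤ θ * nv v y := by
    intro p
    have h2 := hTC p q
    have h3 : y p * y' q - y q * y' p = (y p - κ * y' p) * y' q := by
      rw [← hκ]; ring
    rw [h3, map_mul, hq] at h2
    refine le_of_mul_le_mul_right ?_ hY'
    calc v (y p - κ * y' p) * nv v y' ≤ θ * (nv v y * nv v y') := h2
      _ = θ * nv v y * nv v y' := by ring
  have hlt : θ * nv v y < nv v y := by nlinarith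
  have h4 : v κ * nv v y' ≤ nv v y := by
    rw [← hq, ← map_mul, hκ]
    exact hle y q
  have h5 : nv v y ≤ v κ * nv v y' := by
    obtain ⟨p, hp⟩ := hex y hy
    have h6 : v (y p) ≤ max (v (y p - κ * y' p)) (v (κ * y' p)) := by
      have := hna (y p - κ * y' p) (κ * y' p)
      rwa [sub_add_cancel] at this
    rw [hp] at h6
    rcases le_max_iff.1 h6 with h7 | h7
    · exact absurd (lt_of_le_of_lt (h7.trans (h1 p)) hlt) (lt_irrefl _)
    · refine h7.trans ?_
      rw [map_mul]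
      exact mul_le_mul_of_nonneg_left (hle y' p) (v.nonneg κ)
  have h8 : v κ * nv v y' = nv v y := le_antisymm h4 h5
  have hκ0 : κ ≠ 0 := by
    rintro rfl
    rw [map_zero, zero_mul] at h8
    rw [← h8] at hY
    exact lt_irrefl _ hY
  refine ⟨κ, hκ0, h8, h1, ?_⟩
  intro p hp
  refine le_antisymm (hle y p) ?_
  have h9 : v (κ * y' p) ≤ max (v (-(y p - κ * y' p))) (v (y p)) := by
    have := hna (-(y p - κ * y' p)) (y p)
    rwa [show -(y p - κ * y' p) + y p = κ * y' p by ring] at this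
  rw [map_mul, hp, h8, v.map_neg] at h9
  rcases le_max_iff.1 h9 with h7 | h7
  · exact absurd (lt_of_le_of_lt (h7.trans (h1 p)) hlt) (lt_irrefl _)
  · exact h7

end Pool.Agent.SZG.H45
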